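import Pool.Agent.Y546.WQ.Stm6

/-!
# RT-KTWO: the two-adic congruence

Owner helper936 (job 11268 for helper546).
-/

set_option autoImplicit false

namespace Pool.Agent.Y936.WQ

open Pool.Agent.Y546.WQ

lemma eq_one_of_card {Q : Type} [CommRing Q] (h : Nat.card Q = 2) (a : Q) (ha : a ≠ 0) :
    a = 1 := by
  have h1 : (1 : Q) ≠ 0 := by
    intro h10
    have : Subsingleton Q := subsingleton_of_zero_eq_one h10.symm
    have h2 := Nat.card_of_subsingleton (0 : Q)
    omega
  classical
  by_contra hne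
  have : Finite Q := Nat.finite_of_card_ne_zero (by omega)
  have : Fintype Q := Fintype.ofFinite Q
  rw [Nat.card_eq_fintype_card] at h
  have h3 : ({0, 1, a} : Finset Q).card ≤ Fintype.card Q := Finset.card_le_univ _
  rw [Finset.card_insert_of_notMem (by simp [h1.symm, ha.symm]),
    Finset.card_insert_of_notMem (by simpa using fun h => hne h.symm), Finset.card_singleton] at h3
  omega

theorem mainKTWO : S_KTWO := by
  intro R _ _ P hP _ hcard p hp x y z hx hy h
  have := hP
  have hone : ∀ a : R, a ∉ P → (Ideal.Quotient.mk P) a = 1 := by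
    intro a ha
    apply eq_one_of_card hcard
    rwa [Ne, Ideal.Quotient.eq_zero_iff_mem]
  have hp0 : 0 < p := hp.pos
  have hz : z ∉ P := by
    intro hz
    apply hy
    apply hP.mem_of_pow_mem (2 * p)
    have h1 : y ^ (2 * p) = z ^ (2 * p) - x ^ (2 * p) := by rw [← h]; ring
    rw [h1]
    exact P.sub_mem (P.pow_mem_of_mem hz _ (by omega)) (P.pow_mem_of_mem hx _ (by omega))
  have h2 : (2 : R ⧸ P) = 0 := by
    by_contra h2
    have h3 := eq_one_of_card hcard 2 h2
    have h4 : (1 : R ⧸ P) = 0 := by linear_combination h3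
    exact h2 (by rw [h3, h4])
  have hpone : (p : R ⧸ P) = 1 := by
    obtain ⟨k, rfl⟩ := hp
    push_cast
    rw [h2, zero_mul, zero_add]
  have hW : (∑ i ∈ Finset.range p, (z ^ 2) ^ i * (y ^ 2) ^ (p - 1 - i)) ∉ P := by
    rw [← Ideal.Quotient.eq_zero_iff_mem, map_sum]
    have h3 : ∀ i ∈ Finset.range p,
        (Ideal.Quotient.mk P) ((z ^ 2) ^ i * (y ^ 2) ^ (p - 1 - i)) = 1 := by
      intro i _
      rw [map_mul, map_pow, map_pow, map_pow, map_pow, hone z hz, hone y hy]
      simp
    rw [Finset.sum_congr rfl h3, Finset.sum_const, Finset.card_range, nsmul_eq_mul, mul_one, hpone]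
    intro h10
    have : Subsingleton (R ⧸ P) := subsingleton_of_zero_eq_one h10.symm
    have h2 := Nat.card_of_subsingleton (0 : R ⧸ P)
    omega
  have hprod : (∑ i ∈ Finset.range p, (z ^ 2) ^ i * (y ^ 2) ^ (p - 1 - i)) * (z ^ 2 - y ^ 2) ∈
      P ^ (2 * p) := by
    have h3 := (Commute.all (z ^ 2) (y ^ 2)).geom_sum₂_mul p
    rw [h3, ← pow_mul, ← pow_mul, ← h, add_sub_cancel_right]
    exact Ideal.pow_mem_pow hx _
  exact (Ideal.IsPrime.mul_mem_pow P hprod).resolve_left hW

end Pool.Agent.Y936.WQ
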